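import Pool.Agent.Y867.WP.PaE
import Pool.Agent.Y867.WC.GaK

/-! # Waring–Goldbach with almost all coefficients: `k + O(log k)` variables suffice

For `k ≥ 2`, `s ≥ k + 2 + ⌊log₂ k⌋` and almost every `θ = (θ₁, …, θ_s)` with positive entries, and
for every index `i`: every large real `τ` is within `τ ^ (-1/(8k(k+1)))` of some
`θ₁ x₁ ^ k + ⋯ + θ_s x_s ^ k` with a positive integer `x_i` and primes `x_l` (`l ≠ i`), and every
large integer `n` is of the form `⌊θ₁ x₁ ^ k + ⋯ + θ_s x_s ^ k⌋` with such `x`.  With at most `k`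
variables the first property fails for every choice of the coefficients, even with arbitrary
nonnegative integers. -/

set_option autoImplicit false

open MeasureTheory

namespace Pool.Agent.Results.MP_570bef_nt.AlmostAllCoefficientsPrimes

theorem result (k : ℕ) (hk : 2 ≤ k) :
    (∀ s : ℕ, k + 2 + Nat.log 2 k ≤ s → ∀ᵐ θ : Fin s → ℝ, (∀ l, 0 < θ l) → ∀ i : Fin s,
      (∃ T : ℝ, ∀ τ : ℝ, T ≤ τ → ∃ x : Fin s → ℕ, (1 ≤ x i ∧ ∀ l, l ≠ i → (x l).Prime) ∧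
        |∑ l, θ l * (x l : ℝ) ^ k - τ| < τ ^ (-(1 / (8 * (k : ℝ) * (k + 1))))) ∧
      (∃ N : ℕ, ∀ n : ℕ, N ≤ n → ∃ x : Fin s → ℕ, (1 ≤ x i ∧ ∀ l, l ≠ i → (x l).Prime) ∧
        ⌊∑ l, θ l * (x l : ℝ) ^ k⌋₊ = n)) ∧
    (∀ s : ℕ, s ≤ k → ∀ θ : Fin s → ℝ, (∀ l, 0 < θ l) → ∀ κ : ℝ, 0 < κ → ∀ T : ℝ,
      ∃ τ : ℝ, T ≤ τ ∧ ∀ x : Fin s → ℕ, τ ^ (-κ) ≤ |∑ l, θ l * (x l : ℝ) ^ k - τ|) := by
  refine ⟨fun s hs => ?_, fun s hs θ hθ κ hκ T =>
    Pool.Agent.Y867.WC.lower k s (by omega) hs θ hθ κ hκ T⟩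
  obtain ⟨j, rfl⟩ : ∃ j, k = j + 2 := ⟨k - 2, by omega⟩
  obtain ⟨t, rfl⟩ : ∃ t, s = j + 3 + t := ⟨s - (j + 3), by omega⟩
  have ht : j + 2 < 2 ^ t := by
    have h1 : Nat.log 2 (j + 2) + 1 ≤ t := by omega
    exact (Nat.lt_pow_succ_log_self (by norm_num) _).trans_le (Nat.pow_le_pow_right (by norm_num) h1)
  have hc : (8 : ℝ) * ((j + 2 : ℕ) : ℝ) * (((j + 2 : ℕ) : ℝ) + 1) = 8 * ((j : ℝ) + 2) * (j + 3) := by
    push_cast
    ring
  rw [hc]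
  have hall : ∀ᵐ θ : Fin (j + 3 + t) → ℝ, ∀ i : Fin (j + 3 + t), (∀ l, 0 < θ l) →
      ∃ T : ℝ, ∀ τ : ℝ, T ≤ τ → ∃ x : Fin (j + 3 + t) → ℕ, (1 ≤ x i ∧ ∀ l, l ≠ i → (x l).Prime) ∧
        |∑ l, θ l * (x l : ℝ) ^ (j + 2) - τ| < τ ^ (-(1 / (8 * ((j : ℝ) + 2) * (j + 3)))) := by
    rw [ae_all_iff]
    intro i
    set σ : Equiv.Perm (Fin (j + 3 + t)) := Equiv.swap i ⟨t, by omega⟩ with hσ
    have hmp := volume_measurePreserving_piCongrLeft (fun _ : Fin (j + 3 + t) => ℝ) σ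
    filter_upwards [hmp.quasiMeasurePreserving.ae (Pool.Agent.Y867.WP.main_p j t ht)] with θ hθ hpos
    have hev : ∀ l, (MeasurableEquiv.piCongrLeft (fun _ : Fin (j + 3 + t) => ℝ) σ) θ (σ l) = θ l := fun l => by
      rw [MeasurableEquiv.coe_piCongrLeft]
      exact Equiv.piCongrLeft_apply_apply (fun _ : Fin (j + 3 + t) => ℝ) σ θ l
    obtain ⟨T, hT⟩ := hθ (fun l => by
      obtain ⟨l', rfl⟩ := σ.surjective l
      rw [hev]
      exact hpos l')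
    refine ⟨T, fun τ hτ => ?_⟩
    obtain ⟨x, ⟨hx1, hxp⟩, hx⟩ := hT τ hτ
    refine ⟨fun l => x (σ l), ⟨hx1 _, fun l hl => ?_⟩, ?_⟩
    · apply hxp
      intro h
      apply hl
      have h1 : σ l = ⟨t, by omega⟩ := Fin.ext h
      have h2 : σ i = ⟨t, by omega⟩ := by
        rw [hσ]
        exact Equiv.swap_apply_left _ _
      exact σ.injective (h1.trans h2.symm)
    · have h3 : ∑ l, θ l * ((x (σ l) : ℕ) : ℝ) ^ (j + 2) =
          ∑ l, (MeasurableEquiv.piCongrLeft (fun _ : Fin (j + 3 + t) => ℝ) σ) θ l * (x l : ℝ) ^ (j + 2) := by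
        rw [← Equiv.sum_comp σ (fun l => (MeasurableEquiv.piCongrLeft (fun _ : Fin (j + 3 + t) => ℝ) σ) θ l *
          (x l : ℝ) ^ (j + 2))]
        exact Finset.sum_congr rfl fun l _ => by rw [hev]
      rw [h3]
      exact hx
  filter_upwards [hall] with θ hθ hpos i
  have h1 := hθ i hpos
  exact ⟨h1, Pool.Agent.Y867.WC.int_parts _ _ _ (by positivity) h1⟩

end Pool.Agent.Results.MP_570bef_nt.AlmostAllCoefficientsPrimes
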